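import Mathlib

namespace Pool.Agent.MP_037fd6_co

/-- an uncountable linear order all of whose initial segments are countable -/
class LikeOmegaOne (Ω : Type) [LinearOrder Ω] : Prop where
  countable_Iic : ∀ a : Ω, (Set.Iic a).Countable
  uncountable : ¬ (Set.univ : Set Ω).Countable

variable {Ω : Type} [LinearOrder Ω] [LikeOmegaOne Ω]

lemma exists_bound (s : Set Ω) (hs : s.Countable) : ∃ b, ∀ a ∈ s, a < b := by
  by_contra h
  push Not at h
  apply LikeOmegaOne.uncountable (Ω := Ω)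
  refine (hs.biUnion (fun a _ => LikeOmegaOne.countable_Iic a)).mono ?_
  intro b _
  obtain ⟨a, ha, hab⟩ := h b
  exact Set.mem_biUnion ha hab

lemma exists_bound_fun {ι : Type} [Countable ι] (f : ι → Ω) : ∃ b, ∀ i, f i < b := by
  obtain ⟨b, hb⟩ := exists_bound (Set.range f) (Set.countable_range f)
  exact ⟨b, fun i => hb _ ⟨i, rfl⟩⟩

lemma exists_above (a : Ω) : ∃ b, a < b := by
  obtain ⟨b, hb⟩ := exists_bound {a} (Set.countable_singleton a)
  exact ⟨b, hb a rfl⟩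

lemma countable_Iio (a : Ω) : (Set.Iio a).Countable :=
  (LikeOmegaOne.countable_Iic a).mono Set.Iio_subset_Iic_self

/-- unbounded predicates -/
def Unb (P : Ω → Prop) : Prop := ∀ a, ∃ b, a < b ∧ P b

lemma unb_true : Unb (fun _ : Ω => True) := fun a => (exists_above a).imp fun _ h => ⟨h, trivial⟩

lemma Unb.pigeon {P : Ω → Prop} (hP : Unb P) (c : Ω → ℕ) : ∃ i, Unb fun b => P b ∧ c b = i := by
  by_contra h
  simp only [Unb, not_exists, not_forall] at h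
  choose f hf using h
  obtain ⟨b, hb⟩ := exists_bound_fun f
  obtain ⟨d, hd, hPd⟩ := hP b
  exact hf (c d) d ⟨(hb _).trans hd, hPd, rfl⟩

lemma unb_closure [WellFoundedLT Ω] (F : Ω → Ω) : Unb fun δ => ∀ η < δ, F η < δ := by
  intro a
  have h1 : ∀ x : Ω, ∃ y, x < y ∧ ∀ η ≤ x, F η < y := by
    intro x
    obtain ⟨y, hy⟩ := exists_bound (insert x (F '' Set.Iic x))
      (((LikeOmegaOne.countable_Iic x).image F).insert x)
    exact ⟨y, hy x (Set.mem_insert _ _), fun η hη => hy _ (Set.mem_insert_of_mem _ ⟨η, hη, rfl⟩)⟩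
  choose g hg1 hg2 using h1
  obtain ⟨b, hb⟩ := exists_bound_fun (fun k : ℕ => g^[k] a)
  obtain ⟨δ, hδ, hmin⟩ := (wellFounded_lt (α := Ω)).has_min {d | ∀ k : ℕ, g^[k] a < d} ⟨b, hb⟩
  refine ⟨δ, hδ 0, fun η hη => ?_⟩
  have : ¬ ∀ k : ℕ, g^[k] a < η := fun h => hmin η h hη
  push Not at this
  obtain ⟨k, hk⟩ := this
  have h2 := hg2 _ η hk
  have h3 := hδ (k + 1)
  rw [Function.iterate_succ_apply'] at h3
  exact h2.trans h3

/-- choosing a sparse ladder of witnesses below `δ`, one for each of countably many tasks -/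
lemma ladder {T A : Type} [Nonempty A] (δ : Ω) (Ts : Set T) (hT : Ts.Countable) (lo hi : A → Ω)
    (W : T → A → Prop)
    (hW : ∀ τ ∈ Ts, ∀ η < δ, ∃ a, W τ a ∧ η < lo a ∧ lo a < hi a ∧ hi a < δ)
    (hne : ∀ τ ∈ Ts, ∃ η, η < δ) :
    ∃ pick : T → A, (∀ τ ∈ Ts, W τ (pick τ) ∧ lo (pick τ) < hi (pick τ) ∧ hi (pick τ) < δ) ∧
      (∀ τ ∈ Ts, ∀ τ' ∈ Ts, τ ≠ τ' → hi (pick τ) < lo (pick τ') ∨ hi (pick τ') < lo (pick τ)) ∧
      ∀ η < δ, {τ ∈ Ts | hi (pick τ) ≤ η}.Finite := by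
  classical
  rcases Ts.eq_empty_or_nonempty with rfl | hTne
  · exact ⟨fun _ => Classical.arbitrary A, by simp, by simp, by simp⟩
  obtain ⟨η₀, hη₀⟩ := hne _ hTne.some_mem
  obtain ⟨e, he⟩ := Set.countable_iff_exists_injOn.1 hT
  obtain ⟨en, hen⟩ := (countable_Iio δ).exists_eq_range ⟨η₀, hη₀⟩
  have hen1 : ∀ k, en k < δ := fun k => by
    have : en k ∈ Set.Iio δ := hen ▸ ⟨k, rfl⟩
    exact this
  have key : ∀ (k : ℕ) (η : Ω), ∃ (a : A) (m : Ω), η < δ → (η ≤ m ∧ m < δ ∧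
      ∀ τ ∈ Ts, e τ = k → W τ a ∧ η < lo a ∧ lo a < hi a ∧ hi a ≤ m) := by
    intro k η
    by_cases hη : η < δ
    · by_cases h : ∃ τ ∈ Ts, e τ = k
      · obtain ⟨τ, hτ, hk⟩ := h
        obtain ⟨a, h1, h2, h3, h4⟩ := hW τ hτ η hη
        refine ⟨a, hi a, fun _ => ⟨(h2.trans h3).le, h4, fun τ' hτ' hk' => ?_⟩⟩
        have : τ' = τ := he hτ' hτ (hk'.trans hk.symm)
        subst this
        exact ⟨h1, h2, h3, le_rfl⟩
      · exact ⟨Classical.arbitrary A, η, fun _ => ⟨le_rfl, hη, fun τ hτ hk => absurd ⟨τ, hτ, hk⟩ h⟩⟩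
    · exact ⟨Classical.arbitrary A, η, fun h => absurd h hη⟩
  choose F M hFM using key
  let m : ℕ → Ω := fun k => Nat.rec (en 0) (fun k mk => max (en (k + 1)) (M k mk)) k
  have m0 : m 0 = en 0 := rfl
  have ms : ∀ k, m (k + 1) = max (en (k + 1)) (M k (m k)) := fun k => rfl
  have mlt : ∀ k, m k < δ := by
    intro k
    induction k with
    | zero => exact hen1 0
    | succ k ih => rw [ms]; exact max_lt (hen1 _) (hFM k _ ih).2.1
  have mM : ∀ k, M k (m k) ≤ m (k + 1) := fun k => by rw [ms]; exact le_max_right _ _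
  have mmono : Monotone m :=
    monotone_nat_of_le_succ fun k => (hFM k _ (mlt k)).1.trans (mM k)
  have men : ∀ k, en k ≤ m k := by
    intro k
    cases k with
    | zero => exact le_rfl
    | succ k => rw [ms]; exact le_max_left _ _
  have hp : ∀ τ ∈ Ts, W τ (F (e τ) (m (e τ))) ∧ m (e τ) < lo (F (e τ) (m (e τ))) ∧
      lo (F (e τ) (m (e τ))) < hi (F (e τ) (m (e τ))) ∧ hi (F (e τ) (m (e τ))) ≤ m (e τ + 1) := by
    intro τ hτ
    obtain ⟨h1, h2, h3, h4⟩ := (hFM (e τ) _ (mlt _)).2.2 τ hτ rfl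
    exact ⟨h1, h2, h3, h4.trans (mM _)⟩
  refine ⟨fun τ => F (e τ) (m (e τ)), fun τ hτ => ?_, fun τ hτ τ' hτ' hne => ?_, fun η hη => ?_⟩
  · obtain ⟨h1, -, h3, h4⟩ := hp τ hτ
    exact ⟨h1, h3, h4.trans_lt (mlt (e τ + 1))⟩
  · have hne' : e τ ≠ e τ' := fun h => hne (he hτ hτ' h)
    rcases lt_or_gt_of_ne hne' with h | h
    · exact Or.inl ((hp τ hτ).2.2.2.trans_lt ((mmono h).trans_lt (hp τ' hτ').2.1))
    · exact Or.inr ((hp τ' hτ').2.2.2.trans_lt ((mmono h).trans_lt (hp τ hτ).2.1))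
  · have : η ∈ Set.range en := hen ▸ hη
    obtain ⟨j, rfl⟩ := this
    refine Set.Finite.of_finite_image (f := e) ((Set.finite_lt_nat j).subset ?_)
      (he.mono fun τ hτ => hτ.1)
    rintro _ ⟨τ, ⟨hτ, h⟩, rfl⟩
    have h1 : m (e τ) < m j :=
      ((hp τ hτ).2.1.trans (hp τ hτ).2.2.1).trans_le (h.trans (men j))
    by_contra hc
    exact absurd (mmono (not_lt.1 hc)) (not_le.2 h1)

end Pool.Agent.MP_037fd6_co
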