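import Pool.Agent.MP_037fd6_co.Omega

/-! Labels and the interlacing relation. -/

set_option autoImplicit false

namespace Pool.Agent.MP_037fd6_co.Sl

variable {Ω : Type} [LinearOrder Ω]

/-- increasing sequences -/
abbrev Lb (Ω : Type) [LinearOrder Ω] : Type := {x : ℕ → Ω // StrictMono x}

/-- interlacing of the first `N` entries -/
def Rl (N : ℕ) (x y : Lb Ω) : Prop := ∀ t < N, x.1 (2 * t) < y.1 t ∧ y.1 t < x.1 (2 * t + 1)

theorem Rl.mono {N N' : ℕ} (h : N ≤ N') {x y : Lb Ω} (r : Rl N' x y) : Rl N x y :=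
  fun t ht => r t (ht.trans_le h)

theorem desc (g : ℕ → Lb Ω) (h : ℕ → ℤ) (L N : ℕ) (hN : 2 ^ (2 * L + 2) ≤ N)
    (hs : ∀ i < L, (Rl N (g i) (g (i + 1)) ∧ h (i + 1) = h i - 1) ∨
      (Rl N (g (i + 1)) (g i) ∧ h (i + 1) = h i + 1)) (hc : g L = g 0) : h 0 ≤ h L := by
  have key : ∀ l ≤ L, ∃ a : ℕ, (g 0).1 (2 ^ (L + 1)) ≤ (g l).1 a ∧
      a + 1 ≤ (2 ^ (L + 1) + 1) * 2 ^ l ∧
      (a + 1 : ℚ) ≤ 2 ^ (L + 1) * 2 ^ (h l - h 0) + 2 ^ l := by
    intro l
    induction l with
    | zero => exact fun _ => ⟨_, le_rfl, by simp, by simp⟩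
    | succ l ih =>
      intro hl
      obtain ⟨a, h1, h2, h3⟩ := ih (by omega)
      have h4 : a < N := by
        have e1 : 2 ^ l ≤ 2 ^ L := Nat.pow_le_pow_right two_pos (by omega)
        have e2 : 2 ^ (2 * L + 2) = (2 ^ (L + 1) + 2 ^ (L + 1)) * 2 ^ L := by ring
        have e3 : (2 ^ (L + 1) + 1) * 2 ^ l ≤ (2 ^ (L + 1) + 2 ^ (L + 1)) * 2 ^ L :=
          Nat.mul_le_mul (Nat.add_le_add_left Nat.one_le_two_pow _) e1
        omega
      have h5 : (1 : ℚ) ≤ 2 ^ l := one_le_pow₀ one_le_two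
      rcases hs l (by omega) with ⟨r, e⟩ | ⟨r, e⟩
      · refine ⟨(a + 1) / 2, h1.trans (((g l).2.monotone (by omega)).trans
          (r ((a + 1) / 2) (by omega)).1.le), ?_, ?_⟩
        · rw [pow_succ 2 l, ← mul_assoc]; omega
        · have : (((a + 1) / 2 : ℕ) : ℚ) * 2 ≤ a + 1 := by
            exact_mod_cast Nat.div_mul_le_self (a + 1) 2
          rw [e, sub_right_comm, zpow_sub_one₀ two_ne_zero, pow_succ 2 l]
          linarith
      · refine ⟨2 * a + 1, h1.trans (r a h4).2.le, ?_, ?_⟩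
        · rw [pow_succ 2 l, ← mul_assoc]; omega
        · rw [e, add_sub_right_comm, zpow_add_one₀ two_ne_zero, pow_succ 2 l]
          push_cast
          linarith
  obtain ⟨a, h1, -, h3⟩ := key L le_rfl
  by_contra hlt
  have h4 : (2 : ℚ) ^ (h L - h 0) ≤ 2 ^ (-1 : ℤ) := zpow_le_zpow_right₀ one_le_two (by omega)
  have h5 : (a + 1 : ℚ) ≤ 2 ^ (L + 1) := by
    have := mul_le_mul_of_nonneg_left h4 (by positivity : (0 : ℚ) ≤ 2 ^ (L + 1))
    rw [zpow_neg_one, pow_succ] at this
    rw [pow_succ] at h3 ⊢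
    linarith
  have h6 : a + 1 ≤ 2 ^ (L + 1) := by exact_mod_cast h5
  rw [hc] at h1
  exact absurd h1 (not_le.2 ((g 0).2 (by omega)))

theorem no_odd (g : ℕ → Lb Ω) (L N : ℕ) (hN : 2 ^ (2 * L + 2) ≤ N)
    (hs : ∀ i < L, Rl N (g i) (g (i + 1)) ∨ Rl N (g (i + 1)) (g i)) (hc : g L = g 0) : Even L := by
  classical
  let h : ℕ → ℤ := fun i => Nat.rec 0 (fun i z => if Rl N (g i) (g (i + 1)) then z - 1 else z + 1) i
  have h1 : ∀ i < L, (Rl N (g i) (g (i + 1)) ∧ h (i + 1) = h i - 1) ∨
      (Rl N (g (i + 1)) (g i) ∧ h (i + 1) = h i + 1) := fun i hi => by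
    by_cases r : Rl N (g i) (g (i + 1))
    · exact Or.inl ⟨r, if_pos r⟩
    · exact Or.inr ⟨(hs i hi).resolve_left r, if_neg r⟩
  have h2 : ∀ i ≤ L, (h i - h 0 - i) % 2 = 0 := fun i => by
    induction i with
    | zero => simp
    | succ i ih =>
      intro hi
      have := ih (by omega)
      rcases h1 i hi with ⟨-, e⟩ | ⟨-, e⟩ <;> omega
  have h3 := desc g h L N hN h1 hc
  have h4 := desc (fun i => g (L - i)) (fun i => h (L - i)) L N hN (fun i hi => by
    have e : L - i = L - (i + 1) + 1 := by omega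
    rw [e]
    rcases h1 (L - (i + 1)) (by omega) with ⟨r, e'⟩ | ⟨r, e'⟩
    · exact Or.inr ⟨r, by omega⟩
    · exact Or.inl ⟨r, by omega⟩) (by simp [hc])
  have h5 := h2 L le_rfl
  simp only [Nat.sub_zero, Nat.sub_self] at h4
  exact Nat.even_iff.2 (by omega)

theorem two_col {S : Type} [Fintype S] (H : SimpleGraph S) (lab : S → Lb Ω) (m N : ℕ)
    (hm : Fintype.card S ≤ m) (hN : 2 ^ (2 * m + 2) ≤ N)
    (h : ∀ u v, H.Adj u v → Rl N (lab u) (lab v) ∨ Rl N (lab v) (lab u)) : H.Colorable 2 := by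
  have key : ∀ (L : ℕ) (g : ℕ → S), (∀ i < L, H.Adj (g i) (g (i + 1))) → g L = g 0 → Even L := by
    intro L
    induction L using Nat.strong_induction_on with
    | _ L ih =>
      intro g hg hc
      by_cases hL : L ≤ m
      · exact no_odd (fun i => lab (g i)) L N
          ((Nat.pow_le_pow_right two_pos (by omega)).trans hN) (fun i hi => h _ _ (hg i hi))
          (by rw [hc])
      obtain ⟨i, j, hij, e⟩ : ∃ i j : Fin (m + 1), i < j ∧ g i = g j := by
        obtain ⟨i, j, hij, e⟩ := Fintype.exists_ne_map_eq_of_card_lt (fun i : Fin (m + 1) => g i)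
          (by rw [Fintype.card_fin]; omega)
        rcases lt_or_gt_of_ne hij with k | k
        exacts [⟨i, j, k, e⟩, ⟨j, i, k, e.symm⟩]
      have hj := j.2
      have hij' : i.val < j.val := hij
      have a1 := ih (j - i) (by omega) (fun t => g (i + t)) (fun t ht => hg _ (by omega))
        (by rw [show i.val + (j.val - i.val) = j.val by omega, add_zero, e])
      have a2 := ih (L - (j - i)) (by omega) (fun t => if t ≤ i then g t else g (t + (j - i)))
        (fun t ht => by
          rcases lt_trichotomy t i with k | k | k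
          · rw [if_pos k.le, if_pos (by omega)]; exact hg t (by omega)
          · rw [if_pos k.le, if_neg (by omega), k, e,
              show i.val + 1 + (j.val - i.val) = j.val + 1 by omega]
            exact hg j (by omega)
          · rw [if_neg (by omega), if_neg (by omega), add_right_comm]; exact hg _ (by omega))
        (by rw [if_neg (by omega), if_pos (Nat.zero_le _),
          show L - (j.val - i.val) + (j.val - i.val) = L by omega, hc])
      rw [Nat.even_iff] at a1 a2 ⊢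
      omega
  exact SimpleGraph.two_colorable_iff_forall_loop_even.2 fun u w =>
    key _ w.getVert (fun i hi => w.adj_getVert_succ hi) (by simp)

/-- greedy colouring along a well-founded order -/
theorem greedy {V : Type} (lt : V → V → Prop) (hw : WellFounded lt) (j : ℕ)
    (A : ℕ → V → Prop) (sl : ℕ → V → V) (h : ∀ i v, A i v → lt (sl i v) v) :
    ∃ κ : V → Fin (j + 1), ∀ i < j, ∀ v, A i v → κ (sl i v) ≠ κ v := by
  classical
  have h1 : ∀ φ : Fin j → Fin (j + 1), ∃ c, ∀ i, φ i ≠ c := fun φ => by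
    by_contra hc
    push Not at hc
    have := Fintype.card_le_of_surjective φ hc
    simp at this
  choose ms hms using h1
  obtain ⟨κ, hκ⟩ : ∃ κ : V → Fin (j + 1), ∀ v, κ v =
      ms fun i => if A i v then κ (sl i v) else 0 := by
    refine ⟨hw.fix (C := fun _ => Fin (j + 1))
      fun v ih => ms fun i => if k : A i v then ih _ (h i v k) else 0, fun v => ?_⟩
    rw [WellFounded.fix_eq]
    congr
  refine ⟨κ, fun i hi v k => ?_⟩
  have := hms (fun i => if A i v then κ (sl i v) else 0) ⟨i, hi⟩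
  rwa [if_pos k, ← hκ] at this

end Pool.Agent.MP_037fd6_co.Sl
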