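import Pool.Agent.MP_037fd6_co.SlA

/-! Choosing the labels along a branch. -/

set_option autoImplicit false

namespace Pool.Agent.MP_037fd6_co.Sl

variable {Ω : Type} [LinearOrder Ω]

/-- conditions: a height and announced labels -/
abbrev Cd (Ω : Type) [LinearOrder Ω] : Type := Ω × (Ω → Lb Ω)

/-- end extension -/
def Ex (p q : Cd Ω) : Prop := p.1 ≤ q.1 ∧ ∀ η < p.1, q.2 η = p.2 η

theorem Ex.rfl (p : Cd Ω) : Ex p p := ⟨le_rfl, fun _ _ => Eq.refl _⟩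

theorem Ex.trans {p q r : Cd Ω} (h : Ex p q) (h' : Ex q r) : Ex p r :=
  ⟨h.1.trans h'.1, fun η k => (h'.2 η (k.trans_le h.1)).trans (h.2 η k)⟩

theorem Ex.chain {p : ℕ → Cd Ω} (h : ∀ n, Ex (p n) (p (n + 1))) {m n : ℕ} (k : m ≤ n) :
    Ex (p m) (p n) := by
  induction k with
  | refl => exact Ex.rfl _
  | step _ ih => exact ih.trans (h _)

section
variable (col : Ω → (Ω → Lb Ω) → Ω → ℕ) (N : ℕ → ℕ)

/-- some extension has a new vertex of colour `i` whose label starts as `y` -/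
def Dn (i : ℕ) (y : ℕ → Ω) (q : Cd Ω) : Prop := ∃ (r : Cd Ω) (γ : Ω), Ex q r ∧ q.1 ≤ γ ∧ γ < r.1 ∧
  (∀ t < N i, (r.2 γ).1 t = y t) ∧ col r.1 r.2 γ = i

/-- iterated largeness -/
def Bg (i : ℕ) : ℕ → ℕ → (ℕ → Ω) → Cd Ω → Prop
  | 0, _, y, p => ∀ q, Ex p q → Dn col N i y q
  | m + 1, k, y, p => ∀ q, Ex p q → ∀ ξ, ∃ a, ξ < a ∧ ∃ r, Ex q r ∧
      Bg i m (k + 1) (Function.update y k a) r

/-- largeness at position `k` -/
def B (i k : ℕ) (y : ℕ → Ω) (p : Cd Ω) : Prop := Bg col N i (N i - k) k y p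

/-- smallness at position `k` -/
def Sm (i k : ℕ) (y : ℕ → Ω) (p : Cd Ω) : Prop := ∀ q, Ex p q → ¬ B col N i k y q

variable {col N}

theorem Dn.congr {i : ℕ} {y y' : ℕ → Ω} {q : Cd Ω} (h : Dn col N i y q)
    (e : ∀ t < N i, y t = y' t) : Dn col N i y' q := by
  obtain ⟨r, γ, h1, h2, h3, h4, h5⟩ := h
  exact ⟨r, γ, h1, h2, h3, fun t ht => (h4 t ht).trans (e t ht), h5⟩

theorem Dn.down {i : ℕ} {y : ℕ → Ω} {p q : Cd Ω} (h : Dn col N i y q) (e : Ex p q) :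
    Dn col N i y p := by
  obtain ⟨r, γ, h1, h2, h3⟩ := h
  exact ⟨r, γ, e.trans h1, e.1.trans h2, h3⟩

theorem B.up {i k : ℕ} {y : ℕ → Ω} {p q : Cd Ω} (h : B col N i k y p) (e : Ex p q) :
    B col N i k y q := by
  unfold B at h ⊢
  generalize N i - k = m at h ⊢
  cases m <;> exact fun r hr => h r (e.trans hr)

theorem Sm.up {i k : ℕ} {y : ℕ → Ω} {p q : Cd Ω} (h : Sm col N i k y p) (e : Ex p q) :
    Sm col N i k y q := fun r hr => h r (e.trans hr)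

theorem B_top {i k : ℕ} (hk : N i ≤ k) {y : ℕ → Ω} {p : Cd Ω} :
    B col N i k y p ↔ ∀ q, Ex p q → Dn col N i y q := by
  rw [B, Nat.sub_eq_zero_of_le hk, Bg]

theorem B_low {i k : ℕ} (hk : k < N i) {y : ℕ → Ω} {p : Cd Ω} :
    B col N i k y p ↔ ∀ q, Ex p q → ∀ ξ, ∃ a, ξ < a ∧ ∃ r, Ex q r ∧
      B col N i (k + 1) (Function.update y k a) r := by
  rw [B, show N i - k = N i - (k + 1) + 1 by omega, Bg]
  rfl

theorem B_upd {i k : ℕ} (hk : N i ≤ k) {y : ℕ → Ω} {p : Cd Ω} (a : Ω) :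
    B col N i (k + 1) (Function.update y k a) p ↔ B col N i k y p := by
  rw [B_top hk, B_top (hk.trans k.le_succ)]
  have : ∀ t < N i, Function.update y k a t = y t := fun t ht =>
    Function.update_of_ne (by omega) _ _
  exact ⟨fun h q e => (h q e).congr this, fun h q e => (h q e).congr fun t ht => (this t ht).symm⟩

variable [LikeOmegaOne Ω]

theorem B.step {i k : ℕ} {y : ℕ → Ω} {p : Cd Ω} (h : B col N i k y p) (ξ : Ω) :
    ∃ q, Ex p q ∧ ∃ a, ξ < a ∧ B col N i (k + 1) (Function.update y k a) q := by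
  rcases lt_or_ge k (N i) with hk | hk
  · obtain ⟨a, h1, r, h2, h3⟩ := (B_low hk).1 h p (Ex.rfl p) ξ
    exact ⟨r, h2, a, h1, h3⟩
  · obtain ⟨a, ha⟩ := exists_above ξ
    exact ⟨p, Ex.rfl p, a, ha, (B_upd hk a).2 h⟩

omit [LikeOmegaOne Ω] in
theorem Sm.step {i k : ℕ} {y : ℕ → Ω} {p : Cd Ω} (h : Sm col N i k y p) :
    ∃ q, Ex p q ∧ ∃ ξ, ∀ a, ξ < a → Sm col N i (k + 1) (Function.update y k a) q := by
  rcases lt_or_ge k (N i) with hk | hk
  · have := h p (Ex.rfl p)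
    rw [B_low hk] at this
    push Not at this
    exact this
  · exact ⟨p, Ex.rfl p, p.1, fun a _ q e k => h q e ((B_upd hk a).1 k)⟩

variable [WellFoundedLT Ω]

theorem lim (p : ℕ → Cd Ω) (h : ∀ n, Ex (p n) (p (n + 1))) :
    ∃ q, (∀ n, Ex (p n) q) ∧ ∀ ξ < q.1, ∃ n, ξ < (p n).1 := by
  classical
  obtain ⟨b, hb⟩ := exists_bound_fun fun n => (p n).1
  obtain ⟨δ, hδ, hmin⟩ := (wellFounded_lt (α := Ω)).has_min {d | ∀ n, (p n).1 ≤ d}
    ⟨b, fun n => (hb n).le⟩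
  refine ⟨(δ, fun η => if k : ∃ n, η < (p n).1 then (p k.choose).2 η else (p 0).2 η),
    fun n => ⟨hδ n, fun η hη => ?_⟩, fun ξ hξ => ?_⟩
  · have k : ∃ n, η < (p n).1 := ⟨n, hη⟩
    change (if k : ∃ n, η < (p n).1 then (p k.choose).2 η else (p 0).2 η) = _
    rw [dif_pos k]
    rcases le_total n k.choose with l | l
    · exact (Ex.chain h l).2 η hη
    · exact ((Ex.chain h l).2 η k.choose_spec).symm
  · by_contra hc
    push Not at hc
    exact hmin ξ hc hξ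

theorem baire (p : Cd Ω) (U : ℕ → Cd Ω → Prop) (up : ∀ i q r, U i q → Ex q r → U i r)
    (dense : ∀ i q, Ex p q → ∃ r, Ex q r ∧ U i r) : ∃ q, Ex p q ∧ ∀ i, U i q := by
  choose! f h1 h2 using dense
  let s : ℕ → Cd Ω := fun n => Nat.rec p f n
  have a : ∀ n, Ex p (s n) := fun n => by
    induction n with
    | zero => exact Ex.rfl p
    | succ n ih => exact ih.trans (h1 n _ ih)
  obtain ⟨q, hq, -⟩ := lim s fun n => h1 n _ (a n)
  exact ⟨q, hq 0, fun i => up i _ _ (h2 i _ (a i)) (hq (i + 1))⟩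

theorem xstep (E : ℕ → Prop) {k : ℕ} {x : ℕ → Ω} {p : Cd Ω} (h : ∀ i, ¬ E i → Sm col N i k x p)
    (ξ : Ω) : ∃ q, Ex p q ∧ ∃ a, ξ < a ∧
      ∀ i, ¬ E i → Sm col N i (k + 1) (Function.update x k a) q := by
  obtain ⟨q, h1, h2⟩ := baire p
    (fun i q => ∃ ξ, ¬ E i → ∀ a, ξ < a → Sm col N i (k + 1) (Function.update x k a) q)
    (fun i q r ⟨ξ, k⟩ e => ⟨ξ, fun n a ha => (k n a ha).up e⟩) fun i q e => by
      by_cases n : E i
      · exact ⟨q, Ex.rfl q, ξ, fun n' => absurd n n'⟩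
      · obtain ⟨r, k1, ξ, k2⟩ := ((h i n).up e).step
        exact ⟨r, k1, ξ, fun _ => k2⟩
  choose z hz using h2
  obtain ⟨b, hb⟩ := exists_bound_fun z
  obtain ⟨a, ha⟩ := exists_above (max ξ b)
  exact ⟨q, h1, a, (le_max_left _ _).trans_lt ha, fun i n =>
    hz i n a ((hb i).trans ((le_max_right _ _).trans_lt ha))⟩

theorem ystep (E : ℕ → Prop) {k : ℕ} {y : ℕ → ℕ → Ω} {p : Cd Ω}
    (h : ∀ i, E i → B col N i k (y i) p) (ξ : Ω) : ∃ q, Ex p q ∧ ∃ a : ℕ → Ω, ∀ i, ξ < a i ∧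
      (E i → B col N i (k + 1) (Function.update (y i) k (a i)) q) := by
  obtain ⟨q, h1, h2⟩ := baire p
    (fun i q => ∃ a, ξ < a ∧ (E i → B col N i (k + 1) (Function.update (y i) k a) q))
    (fun i q r ⟨a, k1, k2⟩ e => ⟨a, k1, fun n => (k2 n).up e⟩) fun i q e => by
      by_cases n : E i
      · obtain ⟨r, k1, a, k2, k3⟩ := ((h i n).up e).step ξ
        exact ⟨r, k1, a, k2, fun _ => k3⟩
      · obtain ⟨a, ha⟩ := exists_above ξ
        exact ⟨q, Ex.rfl q, a, ha, fun n' => absurd n' n⟩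
  choose a ha using h2
  exact ⟨q, h1, a, ha⟩

/-- the label and its partners -/
theorem both (o : Cd Ω) : ∃ (q : Cd Ω) (X : Lb Ω), ∀ i, ¬ Dn col N i X.1 q ∨
    ∃ y : ℕ → Ω, (∀ t < N i, X.1 (2 * t) < y t ∧ y t < X.1 (2 * t + 1)) ∧
      ∀ r, Ex q r → Dn col N i y r := by
  obtain ⟨p, -, hp⟩ := baire o
    (fun i q => B col N i 0 (fun _ => o.1) q ∨ Sm col N i 0 (fun _ => o.1) q)
    (fun i q r k e => k.imp (·.up e) (·.up e)) fun i q _ => by
      by_cases k : Sm col N i 0 (fun _ => o.1) q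
      · exact ⟨q, Ex.rfl q, Or.inr k⟩
      · unfold Sm at k
        push Not at k
        exact k.imp fun r k => ⟨k.1, Or.inl k.2⟩
  let E : ℕ → Prop := fun i => B col N i 0 (fun _ => o.1) p
  let Inv : ℕ → Cd Ω × (ℕ → Ω) × (ℕ → ℕ → Ω) → Prop := fun t s =>
    (∀ i, ¬ E i → Sm col N i (2 * t) s.2.1 s.1) ∧ ∀ i, E i → B col N i t (s.2.2 i) s.1
  have step : ∀ t s, Inv t s → ∃ s', Inv (t + 1) s' ∧ Ex s.1 s'.1 ∧
      (∀ k < 2 * t, s'.2.1 k = s.2.1 k) ∧ (∀ i, ∀ k < t, s'.2.2 i k = s.2.2 i k) ∧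
      s.2.1 (2 * t - 1) < s'.2.1 (2 * t) ∧
      ∀ i, s'.2.1 (2 * t) < s'.2.2 i t ∧ s'.2.2 i t < s'.2.1 (2 * t + 1) := by
    rintro t ⟨q, x, y⟩ ⟨h1, h2⟩
    obtain ⟨q₁, e1, a, ha, h3⟩ := xstep E h1 (x (2 * t - 1))
    obtain ⟨q₂, e2, b, hb⟩ := ystep E (fun i n => (h2 i n).up e1) a
    obtain ⟨μ, hμ⟩ := exists_bound_fun b
    obtain ⟨q₃, e3, a', ha', h4⟩ := xstep E (fun i n => (h3 i n).up e2) μ
    refine ⟨(q₃, Function.update (Function.update x (2 * t) a) (2 * t + 1) a',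
      fun i => Function.update (y i) t (b i)), ⟨h4, fun i n => ((hb i).2 n).up e3⟩,
      e1.trans (e2.trans e3), fun k hk => ?_, fun i k hk => Function.update_of_ne hk.ne _ _, ?_,
      fun i => ?_⟩
    · exact (Function.update_of_ne (by omega) _ _).trans (Function.update_of_ne hk.ne _ _)
    · simpa using ha
    · simpa using ⟨(hb i).1, (hμ i).trans ha'⟩
  choose! nx g1 g2 g3 g4 g5 g6 using step
  let s : ℕ → Cd Ω × (ℕ → Ω) × (ℕ → ℕ → Ω) := fun n =>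
    Nat.rec (p, fun _ => o.1, fun _ _ => o.1) nx n
  have a : ∀ n, Inv n (s n) := fun n => by
    induction n with
    | zero => exact ⟨fun i n => (hp i).resolve_left n, fun i n => n⟩
    | succ n ih => exact g1 n _ ih
  have bx : ∀ t t', t ≤ t' → ∀ k < 2 * t, (s t').2.1 k = (s t).2.1 k := fun t t' h k hk => by
    induction h with
    | refl => rfl
    | @step m l ih => exact (g3 m _ (a m) k (by have : t ≤ m := l; omega)).trans ih
  have by' : ∀ t t', t ≤ t' → ∀ i, ∀ k < t, (s t').2.2 i k = (s t).2.2 i k := fun t t' h i k hk => by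
    induction h with
    | refl => rfl
    | @step m l ih => exact (g4 m _ (a m) i k (hk.trans_le l)).trans ih
  have cx : ∀ t, ∀ k < 2 * t, (s (k + 1)).2.1 k = (s t).2.1 k := fun t k hk =>
    (bx (k + 1) (max (k + 1) t) (le_max_left _ _) k (by omega)).symm.trans
      (bx t _ (le_max_right _ _) k hk)
  have mono : StrictMono fun k => (s (k + 1)).2.1 k := strictMono_nat_of_lt_succ fun k => by
    obtain ⟨t, rfl | rfl⟩ := Nat.even_or_odd' k
    · rw [cx (t + 1) _ (by omega), cx (t + 1) _ (by omega)]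
      exact (g6 t _ (a t) 0).1.trans (g6 t _ (a t) 0).2
    · rw [cx (t + 1) _ (by omega), cx (t + 2) _ (by omega)]
      exact g5 (t + 1) _ (a (t + 1))
  obtain ⟨q, hq, -⟩ := lim (fun n => (s n).1) fun n => g2 n _ (a n)
  obtain ⟨r, e, hr⟩ := baire q (fun i r => ¬ E i → ¬ Dn col N i (fun k => (s (k + 1)).2.1 k) r)
    (fun i r r' k e n d => k n (d.down e)) fun i r e => by
      by_cases n : E i
      · exact ⟨r, Ex.rfl r, fun n' => absurd n n'⟩
      · have := (a (N i)).1 i n r ((hq _).trans e)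
        rw [B_top (by omega)] at this
        push Not at this
        exact this.imp fun r' k => ⟨k.1, fun _ d => k.2 (d.congr fun t ht => cx _ t (by omega))⟩
  refine ⟨r, ⟨_, mono⟩, fun i => ?_⟩
  by_cases n : E i
  · refine Or.inr ⟨(s (N i)).2.2 i, fun t ht => ?_,
      fun r' e' => (B_top le_rfl).1 ((a (N i)).2 i n) r' ((hq _).trans (e.trans e'))⟩
    dsimp only
    rw [cx (t + 1) _ (by omega), cx (t + 1) _ (by omega), by' (t + 1) _ ht i t t.lt_succ_self]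
    exact g6 t _ (a t) i
  · exact Or.inl (hr i n)

theorem core (o : Cd Ω) (loc : ∀ δ a a' γ, (∀ η < δ, a' η = a η) → col δ a' γ = col δ a γ) :
    ∃ δ a γ, γ < δ ∧ ∀ ξ < δ, ∃ η γ', ξ < γ' ∧ γ' < η ∧ η < δ ∧ col η a γ' = col δ a γ ∧
      Rl (N (col δ a γ)) (a γ) (a γ') := by
  obtain ⟨q, X, h⟩ := both (col := col) (N := N) o
  obtain ⟨δ, hδ⟩ := exists_above q.1
  have e0 : Ex q (δ, Function.update q.2 q.1 X) :=
    ⟨hδ.le, fun η hη => Function.update_of_ne hη.ne _ _⟩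
  have step : ∀ r, Ex q r → ∃ r', Ex r r' ∧ ∀ i, Dn col N i X.1 q → ∃ η γ', r.1 ≤ γ' ∧ γ' < η ∧
      η < r'.1 ∧ col η r'.2 γ' = i ∧ Rl (N i) X (r'.2 γ') := fun r e =>
    baire r _ (fun i r₁ r₂ k e' d => by
      obtain ⟨η, γ', k1, k2, k3, k4, k5⟩ := k d
      exact ⟨η, γ', k1, k2, k3.trans_le e'.1, (loc η _ _ γ' fun β hβ => e'.2 β (hβ.trans k3)).trans k4,
        by rwa [e'.2 γ' (k2.trans k3)]⟩) fun i r₁ e' => by
      rcases h i with k | ⟨y, k1, k2⟩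
      · exact ⟨r₁, Ex.rfl _, fun d => absurd d k⟩
      · obtain ⟨r₂, γ', l1, l2, l3, l4, l5⟩ := k2 r₁ (e.trans e')
        obtain ⟨η, hη⟩ := exists_above r₂.1
        exact ⟨(η, r₂.2), ⟨l1.1.trans hη.le, l1.2⟩, fun _ => ⟨r₂.1, γ', e'.1.trans l2, l3, hη, l5,
          fun t ht => by rw [l4 t ht]; exact k1 t ht⟩⟩
  choose! nx g1 g2 using step
  let s : ℕ → Cd Ω := fun n => Nat.rec (δ, Function.update q.2 q.1 X) (fun _ => nx) n
  have a : ∀ n, Ex q (s n) := fun n => by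
    induction n with
    | zero => exact e0
    | succ n ih => exact ih.trans (g1 _ ih)
  obtain ⟨r, hr, hc⟩ := lim s fun n => g1 _ (a n)
  have l1 : q.1 < r.1 := hδ.trans_le (hr 0).1
  have l2 : r.2 q.1 = X := ((hr 0).2 q.1 hδ).trans (Function.update_self ..)
  refine ⟨r.1, r.2, q.1, l1, fun ξ hξ => ?_⟩
  obtain ⟨n, hn⟩ := hc ξ hξ
  obtain ⟨η, γ', k1, k2, k3, k4, k5⟩ := g2 _ (a n) (col r.1 r.2 q.1)
    ⟨r, q.1, (a 0).trans (hr 0), le_rfl, l1, fun t _ => by rw [l2], rfl⟩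
  have e := hr (n + 1)
  exact ⟨η, γ', hn.trans_le k1, k2, k3.trans_le e.1,
    (loc η _ _ γ' fun β hβ => e.2 β (hβ.trans k3)).trans k4,
    by rw [l2, e.2 γ' (k2.trans k3)]; exact k5⟩

end

end Pool.Agent.MP_037fd6_co.Sl
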