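import Pool.Agent.MP_037fd6_co.Specker

namespace Pool.Agent.MP_037fd6_co

variable {Ω : Type} [LinearOrder Ω] {X : Type}

/-- restriction of a branch of colourings to the levels below `δ` -/
def cut (δ : Ω) (b : Ω → X × Ω → ℕ) : Ω → X × Ω → ℕ := fun η => if η < δ then b η else 0

lemma cut_of_lt {δ η : Ω} (h : η < δ) (b : Ω → X × Ω → ℕ) : cut δ b η = b η := if_pos h

lemma cut_cut {β δ : Ω} (h : β ≤ δ) (b : Ω → X × Ω → ℕ) : cut β (cut δ b) = cut β b := by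
  funext η
  by_cases hη : η < β
  · rw [cut_of_lt hη, cut_of_lt hη, cut_of_lt (hη.trans_le h)]
  · simp [cut, hη]

/-- admissible witnesses for a task -/
def Wit (S : SimpleGraph X) (b : Ω → X × Ω → ℕ) (τ : (X × Ω) × ℕ) (a : Ω × (X × Ω)) : Prop :=
  S.Adj τ.1.1 a.2.1 ∧ b a.1 a.2 = τ.2 ∧ τ.1.2 < a.1

/-- the tasks at a node -/
def Tasks (S : SimpleGraph X) (r : X → Ω) (δ : Ω) (b : Ω → X × Ω → ℕ) : Set ((X × Ω) × ℕ) :=
  {τ | r τ.1.1 < δ ∧ τ.1.2 < δ ∧ ∀ η < δ, ∃ a, Wit S b τ a ∧ η < a.2.2 ∧ a.2.2 < a.1 ∧ a.1 < δ}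

/-- what is required of the chosen ladders -/
structure GoodPick (S : SimpleGraph X) (r : X → Ω)
    (pick : Ω → (Ω → X × Ω → ℕ) → (X × Ω) × ℕ → Ω × (X × Ω)) : Prop where
  wit : ∀ δ b, ∀ τ ∈ Tasks S r δ b, Wit S b τ (pick δ b τ) ∧
    (pick δ b τ).2.2 < (pick δ b τ).1 ∧ (pick δ b τ).1 < δ
  sparse : ∀ δ b, ∀ τ ∈ Tasks S r δ b, ∀ τ' ∈ Tasks S r δ b, τ ≠ τ' →
    (pick δ b τ).1 < (pick δ b τ').2.2 ∨ (pick δ b τ').1 < (pick δ b τ).2.2
  fin : ∀ δ b, ∀ η < δ, {τ ∈ Tasks S r δ b | (pick δ b τ).1 ≤ η}.Finite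

lemma exists_goodPick [LikeOmegaOne Ω] [Nonempty X] [Nonempty Ω] (S : SimpleGraph X) (r : X → Ω)
    (hr : ∀ η, {x | r x ≤ η}.Countable) : ∃ pick, GoodPick S r pick := by
  have h : ∀ (δ : Ω) (b : Ω → X × Ω → ℕ), (Tasks S r δ b).Countable := by
    intro δ b
    refine (((hr δ).prod (countable_Iio δ)).prod (Set.countable_univ (α := ℕ))).mono ?_
    rintro τ ⟨h1, h2, -⟩
    exact ⟨⟨h1.le, h2⟩, trivial⟩
  choose pick h1 h2 h3 using fun (δ : Ω) (b : Ω → X × Ω → ℕ) =>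
    ladder δ (Tasks S r δ b) (h δ b) (fun a : Ω × (X × Ω) => a.2.2) (fun a => a.1) (Wit S b)
      (fun τ hτ => hτ.2.2) (fun τ hτ => ⟨_, hτ.2.1⟩)
  exact ⟨pick, h1, h2, h3⟩

/-- vertices: level, node of the tree of colourings, label -/
abbrev Vert (Ω X : Type) := Ω × (Ω → X × Ω → ℕ) × (X × Ω)

section
variable (S : SimpleGraph X) (r : X → Ω) (pick : Ω → (Ω → X × Ω → ℕ) → (X × Ω) × ℕ → Ω × (X × Ω))

/-- the vertex selected for a task -/
def sel (δ : Ω) (b : Ω → X × Ω → ℕ) (τ : (X × Ω) × ℕ) : Vert Ω X :=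
  ((pick δ b τ).1, cut (pick δ b τ).1 b, (pick δ b τ).2)

/-- `u` is a lower neighbour of `v` -/
def Low (u v : Vert Ω X) : Prop :=
  cut v.1 v.2.1 = v.2.1 ∧ ∃ i, (v.2.2, i) ∈ Tasks S r v.1 v.2.1 ∧ u = sel pick v.1 v.2.1 (v.2.2, i)

/-- the graph on the tree -/
def treeGraph : SimpleGraph (Vert Ω X) := SimpleGraph.fromRel (Low S r pick)

variable {S r pick} (hp : GoodPick S r pick)
include hp

lemma Low.lt {u v : Vert Ω X} (h : Low S r pick u v) : u.1 < v.1 := by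
  obtain ⟨-, i, hi, rfl⟩ := h
  exact (hp.wit _ _ _ hi).2.2

lemma Low.adj {u v : Vert Ω X} (h : Low S r pick u v) : S.Adj v.2.2.1 u.2.2.1 := by
  obtain ⟨-, i, hi, rfl⟩ := h
  exact (hp.wit _ _ _ hi).1.1

lemma Low.above {u v : Vert Ω X} (h : Low S r pick u v) : v.2.2.2 < u.1 := by
  obtain ⟨-, i, hi, rfl⟩ := h
  exact (hp.wit _ _ _ hi).1.2.2

lemma Low.sparse {u u' v : Vert Ω X} (h : Low S r pick u v) (h' : Low S r pick u' v)
    (hne : u ≠ u') : u.1 < u'.2.2.2 ∨ u'.1 < u.2.2.2 := by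
  obtain ⟨-, i, hi, rfl⟩ := h
  obtain ⟨-, i', hi', rfl⟩ := h'
  exact hp.sparse _ _ _ hi _ hi' fun e => hne (by rw [e])

lemma no_special {w u u' v : Vert Ω X} (h : Low S r pick u v) (h' : Low S r pick u' v)
    (hne : u ≠ u') (k : Low S r pick w u) (k' : Low S r pick w u') : False := by
  rcases h.sparse hp h' hne with e | e
  · exact lt_asymm (e.trans (k'.above hp)) (k.lt hp)
  · exact lt_asymm (e.trans (k.above hp)) (k'.lt hp)

lemma low_finite (v : Vert Ω X) {η : Ω} (hη : η < v.1) :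
    {u | Low S r pick u v ∧ u.1 ≤ η}.Finite := by
  refine ((hp.fin v.1 v.2.1 η hη).image (sel pick v.1 v.2.1)).subset ?_
  rintro u ⟨⟨-, i, hi, rfl⟩, h⟩
  exact ⟨_, ⟨hi, h⟩, rfl⟩

lemma common_finite {v v' : Vert Ω X} (hne : v ≠ v') :
    {u | Low S r pick u v ∧ Low S r pick u v'}.Finite := by
  rcases lt_trichotomy v.1 v'.1 with h | h | h
  · exact (low_finite hp v' h).subset fun u hu => ⟨hu.2, (hu.1.lt hp).le⟩
  · obtain ⟨δ, b, l⟩ := v
    obtain ⟨δ', b', l'⟩ := v'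
    obtain rfl : δ = δ' := h
    by_cases hb : ∃ η < δ, b η ≠ b' η
    · obtain ⟨η, hη, hb⟩ := hb
      refine (low_finite hp (δ, b, l) hη).subset fun u hu => ⟨hu.1, ?_⟩
      obtain ⟨⟨-, i, hi, e⟩, ⟨-, i', hi', e'⟩⟩ := hu
      by_contra hc
      have hc : η < u.1 := not_le.1 hc
      have e1 : u.2.1 = cut u.1 b := by rw [e]; rfl
      have e2 : u.2.1 = cut u.1 b' := by rw [e']; rfl
      apply hb
      rw [← cut_of_lt hc b, ← cut_of_lt hc b', ← e1, ← e2]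
    · push Not at hb
      refine Set.finite_empty.subset ?_
      rintro u ⟨⟨n1, i, hi, e⟩, ⟨n2, i', hi', e'⟩⟩
      have hbb : b = b' := by
        simp only at n1 n2
        rw [← n1, ← n2]
        funext η
        by_cases hη : η < δ
        · rw [cut_of_lt hη, cut_of_lt hη, hb η hη]
        · simp [cut, hη]
      subst hbb
      have hτ : (l, i) ≠ (l', i') := fun h => hne (by rw [show l = l' from congrArg Prod.fst h])
      have e1 : (pick δ b (l, i)).1 = (pick δ b (l', i')).1 :=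
        congrArg (fun z : Vert Ω X => z.1) (e.symm.trans e')
      have e2 : (pick δ b (l, i)).2 = (pick δ b (l', i')).2 :=
        congrArg (fun z : Vert Ω X => z.2.2) (e.symm.trans e')
      have h1 := (hp.wit _ _ _ hi).2.1
      have h2 := (hp.wit _ _ _ hi').2.1
      rcases hp.sparse _ _ _ hi _ hi' hτ with k | k
      · exact lt_asymm (e1 ▸ k) h2
      · exact lt_asymm (e1 ▸ k) h1
  · exact (low_finite hp v h).subset fun u hu => ⟨hu.1, (hu.2.lt hp).le⟩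

lemma one_big (f g : ℕ → Vert Ω X) (hf : Function.Injective f) (hg : Function.Injective g)
    (h : ∀ m n, Low S r pick (f m) (g n) ∨ Low S r pick (g n) (f m)) :
    {m | {n | Low S r pick (g n) (f m)}.Infinite}.Subsingleton := by
  have key : ∀ m m', (f m).1 ≤ (f m').1 → {n | Low S r pick (g n) (f m)}.Infinite → m = m' := by
    intro m m' hle hinf
    by_contra hne
    apply hinf
    refine ((common_finite hp (hf.ne hne)).preimage hg.injOn).subset fun n hn => ⟨hn, ?_⟩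
    rcases h m' n with k | k
    · exact absurd ((k.lt hp).trans (Low.lt hp hn)) (not_lt.2 hle)
    · exact k
  intro m hm m' hm'
  rcases le_total (f m).1 (f m').1 with k | k
  · exact key m m' k hm
  · exact (key m' m k hm').symm

lemma no_bipartite (f g : ℕ → Vert Ω X) (hf : Function.Injective f) (hg : Function.Injective g)
    (h : ∀ m n, Low S r pick (f m) (g n) ∨ Low S r pick (g n) (f m)) : False := by
  have h1 := (one_big hp f g hf hg h).finite
  have h2 := (one_big hp g f hg hf fun n m => (h m n).symm).finite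
  obtain ⟨m₀, hm₀⟩ := h1.exists_notMem
  have hm₀ : {n | Low S r pick (g n) (f m₀)}.Finite := Set.not_infinite.1 hm₀
  obtain ⟨n₁, hn₁⟩ := (hm₀.union h2).exists_notMem
  obtain ⟨n₂, hn₂⟩ := ((hm₀.union h2).insert n₁).exists_notMem
  simp only [Set.mem_insert_iff, Set.mem_union, Set.mem_ofPred_eq, not_or, Set.not_infinite]
    at hn₁ hn₂
  obtain ⟨m, hm⟩ := (hn₁.2.union hn₂.2.2).exists_notMem
  simp only [Set.mem_union, Set.mem_ofPred_eq, not_or] at hm
  exact no_special hp ((h m n₁).resolve_left hm.1) ((h m n₂).resolve_left hm.2)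
    (hg.ne (Ne.symm hn₂.1)) ((h m₀ n₁).resolve_right hn₁.1) ((h m₀ n₂).resolve_right hn₂.2.1)

lemma tree_adj {u v : Vert Ω X} (h : (treeGraph S r pick).Adj u v) :
    Low S r pick u v ∨ Low S r pick v u := ((SimpleGraph.fromRel_adj _ _ _).1 h).2

lemma tree_adj_level {u v : Vert Ω X} (h : (treeGraph S r pick).Adj u v) : u.1 ≠ v.1 := by
  rcases tree_adj hp h with k | k
  · exact (k.lt hp).ne
  · exact (k.lt hp).ne'

lemma tree_adj_label {u v : Vert Ω X} (h : (treeGraph S r pick).Adj u v) :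
    S.Adj u.2.2.1 v.2.2.1 := by
  rcases tree_adj hp h with k | k
  · exact (k.adj hp).symm
  · exact k.adj hp

lemma tree_mono_edge [LikeOmegaOne Ω] [WellFoundedLT Ω] (hr : ∀ η, {x | r x ≤ η}.Countable)
    (hS : ∀ c : X → ℕ, ∃ x y, S.Adj x y ∧ c x = c y) (c : Vert Ω X → ℕ) :
    ∃ u v, (treeGraph S r pick).Adj u v ∧ c u = c v := by
  classical
  obtain ⟨b, hb⟩ : ∃ b : Ω → X × Ω → ℕ, ∀ δ l, b δ l = c (δ, cut δ b, l) := by
    refine ⟨(wellFounded_lt (α := Ω)).fix (C := fun _ => X × Ω → ℕ)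
      fun δ ih l => c (δ, fun η => if h : η < δ then ih η h else 0, l), fun δ l => ?_⟩
    rw [WellFounded.fix_eq]
    congr
  let Large : X → ℕ → Prop := fun y i => ∀ η, ∃ a : Ω × Ω, η < a.2 ∧ a.2 < a.1 ∧ b a.1 (y, a.2) = i
  have hF : ∀ η : Ω, ∃ d : Ω, ∀ y, r y ≤ η → ∀ i, Large y i →
      ∃ a : Ω × Ω, η < a.2 ∧ a.2 < a.1 ∧ b a.1 (y, a.2) = i ∧ a.1 < d := by
    intro η
    have : ∀ z : X × ℕ, ∃ a : Ω × Ω, Large z.1 z.2 → η < a.2 ∧ a.2 < a.1 ∧ b a.1 (z.1, a.2) = z.2 := by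
      intro z
      by_cases h : Large z.1 z.2
      · obtain ⟨a, ha⟩ := h η
        exact ⟨a, fun _ => ha⟩
      · exact ⟨(η, η), fun k => absurd k h⟩
    choose w hw using this
    obtain ⟨d, hd⟩ := exists_bound ((fun z => (w z).1) '' ({x | r x ≤ η} ×ˢ (Set.univ : Set ℕ)))
      (((hr η).prod Set.countable_univ).image _)
    refine ⟨d, fun y hy i hi => ⟨w (y, i), (hw (y, i) hi).1, (hw (y, i) hi).2.1,
      (hw (y, i) hi).2.2, hd _ ⟨(y, i), ⟨hy, trivial⟩, rfl⟩⟩⟩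
  choose F hF using hF
  choose c1 hc1 using fun l : X × Ω => (unb_closure F).pigeon fun δ => b δ l
  choose c2 hc2 using fun x : X => unb_true.pigeon fun γ => c1 (x, γ)
  have hlarge : ∀ x, Large x (c2 x) := by
    intro x η
    obtain ⟨γ, h1, -, h2⟩ := hc2 x η
    obtain ⟨β, h3, -, h4⟩ := hc1 (x, γ) γ
    exact ⟨(β, γ), h1, h3, h4.trans h2⟩
  obtain ⟨x, y, hxy, hc⟩ := hS c2
  obtain ⟨γ, -, -, hγ⟩ := hc2 x (r x)
  obtain ⟨δ, h1, h2, h3⟩ := hc1 (x, γ) (max γ (max (r x) (r y)))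
  simp only [max_lt_iff] at h1
  have hτ : ((x, γ), c2 x) ∈ Tasks S r δ (cut δ b) := by
    refine ⟨h1.2.1, h1.1, fun η hη => ?_⟩
    have hlt : max η (max γ (r y)) < δ := max_lt hη (max_lt h1.1 h1.2.2)
    obtain ⟨a, k1, k2, k3, k4⟩ := hF (max η (max γ (r y))) y
      ((le_max_right _ _).trans (le_max_right _ _)) _ (hlarge y)
    simp only [max_lt_iff] at k1
    have k5 : a.1 < δ := k4.trans (h2 _ hlt)
    exact ⟨(a.1, (y, a.2)), ⟨hxy, by rw [cut_of_lt k5, k3, hc], k1.2.1.trans k2⟩, k1.1, k2, k5⟩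
  have hlow : Low S r pick (sel pick δ (cut δ b) ((x, γ), c2 x)) (δ, cut δ b, (x, γ)) :=
    ⟨cut_cut le_rfl b, c2 x, hτ, rfl⟩
  obtain ⟨⟨-, w2, -⟩, -, w3⟩ := hp.wit _ _ _ hτ
  refine ⟨_, _, (SimpleGraph.fromRel_adj _ _ _).2
    ⟨fun e => (hlow.lt hp).ne (congrArg Prod.fst e), Or.inl hlow⟩, ?_⟩
  rw [← hb, h3, hγ, sel, cut_cut w3.le, ← hb, ← cut_of_lt w3 b, w2]

end

/-- `ω₁` as a type -/
abbrev W1 : Type := (Cardinal.aleph 1).ord.ToType

instance : LikeOmegaOne W1 where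
  countable_Iic a := by
    rw [← Set.Iio_insert]
    refine Set.Countable.insert _ ?_
    rw [Cardinal.countable_iff_lt_aleph_one]
    exact Cardinal.mk_Iio_toType_ord_lt a
  uncountable := by
    rw [Cardinal.countable_iff_lt_aleph_one, Cardinal.mk_univ, Cardinal.mk_ord_toType]
    exact lt_irrefl _

theorem main (k : ℕ) : ∃ (V : Type) (G : SimpleGraph V),
    IsLeast {κ : Cardinal.{0} | ∃ C : Type, Cardinal.mk C = κ ∧ Nonempty (G.Coloring C)}
      (Cardinal.aleph 1) ∧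
    ¬ (completeBipartiteGraph ℕ ℕ).IsContained G ∧
    ∀ r : ℕ, 1 ≤ r → r ≤ k → ¬ (SimpleGraph.cycleGraph (2 * r + 1)).IsContained G := by
  have hne : Nonempty W1 := by
    by_contra h
    rw [not_nonempty_iff] at h
    exact LikeOmegaOne.uncountable (Ω := W1) (Set.countable_univ)
  obtain ⟨r, hr⟩ := exists_rank (Ω := W1) ((2 * k + 3) * (2 * k + 1) + 1)
  obtain ⟨pick, hp⟩ := exists_goodPick (specker W1 _ (k + 1)) r hr
  refine ⟨_, treeGraph (specker W1 _ (k + 1)) r pick, ⟨⟨W1, Cardinal.mk_ord_toType _,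
    ⟨SimpleGraph.Coloring.mk Prod.fst (tree_adj_level hp)⟩⟩, ?_⟩, ?_, ?_⟩
  · rintro κ ⟨C, rfl, ⟨col⟩⟩
    by_contra hlt
    rw [not_le, Cardinal.lt_aleph_one_iff, Cardinal.mk_le_aleph0_iff] at hlt
    obtain ⟨e, he⟩ := Countable.exists_injective_nat C
    obtain ⟨u, v, h1, h2⟩ := tree_mono_edge hp hr
      (specker_mono_edge (by nlinarith)) (fun v => e (col v))
    exact col.valid h1 (he h2)
  · rintro ⟨φ⟩
    exact no_bipartite hp (fun m => φ (.inl m)) (fun n => φ (.inr n))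
      (φ.injective.comp Sum.inl_injective) (φ.injective.comp Sum.inr_injective)
      fun m n => tree_adj hp (φ.toHom.map_adj (by simp))
  · rintro s hs1 hsk ⟨φ⟩
    obtain ⟨t, rfl⟩ : ∃ t, s = t + 1 := ⟨s - 1, by omega⟩
    refine specker_no_odd hsk
      (fun i => (φ (Fin.ofNat (2 * (t + 1) + 1) i)).2.2.1) (fun i _ => ?_) ?_
    · refine tree_adj_label hp (φ.toHom.map_adj ?_)
      rw [SimpleGraph.cycleGraph_adj']
      right
      have : Fin.ofNat (2 * (t + 1) + 1) (i + 1) - Fin.ofNat (2 * (t + 1) + 1) i = 1 := by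
        rw [sub_eq_iff_eq_add']
        ext
        simp [Fin.val_add]
      rw [this]
      simp
    · have : Fin.ofNat (2 * (t + 1) + 1) (2 * (t + 1) + 1) = Fin.ofNat (2 * (t + 1) + 1) 0 := by
        ext; simp
      simp only [this]

end Pool.Agent.MP_037fd6_co
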