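import Pool.Agent.MP_037fd6_co.SlB
import Pool.Agent.MP_037fd6_co.Tree

/-! The graph on the tree of labels and colours. -/

set_option autoImplicit false

namespace Pool.Agent.MP_037fd6_co.Sl

variable {Ω : Type} [LinearOrder Ω]

/-- branches -/
abbrev Br (Ω : Type) [LinearOrder Ω] : Type := Ω → Lb Ω × (ℕ → ℕ)

/-- vertices -/
abbrev Vt (Ω : Type) [LinearOrder Ω] : Type := Ω × Br Ω × ℕ

variable (o : Lb Ω) (en : Ω → ℕ → Ω) (N : ℕ → ℕ)

/-- restriction of a branch -/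
def ct (δ : Ω) (s : Br Ω) : Br Ω := fun η => if η < δ then s η else (o, 0)

theorem ct_lt {δ η : Ω} (h : η < δ) (s : Br Ω) : ct o δ s η = s η := if_pos h

theorem ct_ct {β δ : Ω} (h : β ≤ δ) (s : Br Ω) : ct o β (ct o δ s) = ct o β s := by
  funext η
  by_cases hη : η < β
  · rw [ct_lt o hη, ct_lt o hη, ct_lt o (hη.trans_le h)]
  · simp [ct, hη]

/-- admissible witnesses -/
def Wt (δ : Ω) (s : Br Ω) (τ : ℕ × ℕ) (a : Ω × ℕ) : Prop :=
  Rl (N τ.2) (s (en δ τ.1)).1 (s (en a.1 a.2)).1 ∧ (s a.1).2 a.2 = τ.2 ∧ en δ τ.1 < a.1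

/-- the tasks at a node -/
def Tk (δ : Ω) (s : Br Ω) : Set (ℕ × ℕ) :=
  {τ | en δ τ.1 < δ ∧ ∀ η < δ, ∃ a, Wt en N δ s τ a ∧ η < en a.1 a.2 ∧ en a.1 a.2 < a.1 ∧ a.1 < δ}

/-- what is required of the ladders -/
structure Gd (pick : Ω → Br Ω → ℕ × ℕ → Ω × ℕ) : Prop where
  wit : ∀ δ s, ∀ τ ∈ Tk en N δ s, Wt en N δ s τ (pick δ s τ) ∧
    en (pick δ s τ).1 (pick δ s τ).2 < (pick δ s τ).1 ∧ (pick δ s τ).1 < δ
  sparse : ∀ δ s, ∀ τ ∈ Tk en N δ s, ∀ τ' ∈ Tk en N δ s, τ ≠ τ' →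
    (pick δ s τ).1 < en (pick δ s τ').1 (pick δ s τ').2 ∨
      (pick δ s τ').1 < en (pick δ s τ).1 (pick δ s τ).2
  fin : ∀ δ s, ∀ η < δ, {τ ∈ Tk en N δ s | (pick δ s τ).1 ≤ η}.Finite

theorem exists_Gd [LikeOmegaOne Ω] [Nonempty Ω] : ∃ pick, Gd en N pick := by
  choose pick h1 h2 h3 using fun (δ : Ω) (s : Br Ω) =>
    ladder δ (Tk en N δ s) (Set.to_countable _) (fun a : Ω × ℕ => en a.1 a.2) (fun a => a.1)
      (Wt en N δ s) (fun τ hτ => hτ.2) (fun τ hτ => ⟨_, hτ.1⟩)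
  exact ⟨pick, h1, h2, h3⟩

variable (pick : Ω → Br Ω → ℕ × ℕ → Ω × ℕ)

/-- the vertex selected for the colour `i` -/
def sl (i : ℕ) (v : Vt Ω) : Vt Ω :=
  ((pick v.1 v.2.1 (v.2.2, i)).1, ct o (pick v.1 v.2.1 (v.2.2, i)).1 v.2.1,
    (pick v.1 v.2.1 (v.2.2, i)).2)

/-- the colour `i` is active at `v` -/
def Ac (i : ℕ) (v : Vt Ω) : Prop := ct o v.1 v.2.1 = v.2.1 ∧ (v.2.2, i) ∈ Tk en N v.1 v.2.1

/-- `u` is a lower neighbour of `v` -/
def Lw (u v : Vt Ω) : Prop := ∃ i, Ac o en N i v ∧ u = sl o pick i v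

/-- the label -/
def lb (v : Vt Ω) : Lb Ω := (v.2.1 (en v.1 v.2.2)).1

variable {o en N pick} (hp : Gd en N pick)
include hp

theorem Ac.rl {i : ℕ} {v : Vt Ω} (h : Ac o en N i v) :
    Rl (N i) (lb en v) (lb en (sl o pick i v)) := by
  obtain ⟨h1, h2, -⟩ := hp.wit _ _ _ h.2
  have := h1.1
  rwa [← ct_lt o h2 v.2.1] at this

theorem Lw.lt {u v : Vt Ω} (h : Lw o en N pick u v) : u.1 < v.1 := by
  obtain ⟨i, hi, rfl⟩ := h
  exact (hp.wit _ _ _ hi.2).2.2

theorem Lw.above {u v : Vt Ω} (h : Lw o en N pick u v) : en v.1 v.2.2 < u.1 := by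
  obtain ⟨i, hi, rfl⟩ := h
  exact (hp.wit _ _ _ hi.2).1.2.2

theorem no_sp {w u u' v : Vt Ω} (h : Lw o en N pick u v) (h' : Lw o en N pick u' v)
    (hne : u ≠ u') (k : Lw o en N pick w u) (k' : Lw o en N pick w u') : False := by
  obtain ⟨i, hi, e⟩ := h
  obtain ⟨i', hi', e'⟩ := h'
  have a := k.above hp
  have a' := k'.above hp
  have b := k.lt hp
  have b' := k'.lt hp
  subst e e'
  rcases hp.sparse _ _ _ hi.2 _ hi'.2 fun e => hne (by rw [show i = i' from congrArg Prod.snd e]) with e | e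
  · exact lt_asymm (e.trans a') b
  · exact lt_asymm (e.trans a) b'

theorem low_fin (v : Vt Ω) {η : Ω} (hη : η < v.1) :
    {u | Lw o en N pick u v ∧ u.1 ≤ η}.Finite := by
  refine ((hp.fin v.1 v.2.1 η hη).image fun τ => sl o pick τ.2 v).subset ?_
  rintro u ⟨⟨i, hi, rfl⟩, h⟩
  exact ⟨_, ⟨hi.2, h⟩, rfl⟩

theorem com_fin {v v' : Vt Ω} (hne : v ≠ v') :
    {u | Lw o en N pick u v ∧ Lw o en N pick u v'}.Finite := by
  rcases lt_trichotomy v.1 v'.1 with h | h | h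
  · exact (low_fin hp v' h).subset fun u hu => ⟨hu.2, (hu.1.lt hp).le⟩
  · obtain ⟨δ, b, l⟩ := v
    obtain ⟨δ', b', l'⟩ := v'
    obtain rfl : δ = δ' := h
    by_cases hb : ∃ η < δ, b η ≠ b' η
    · obtain ⟨η, hη, hb⟩ := hb
      refine (low_fin hp (δ, b, l) hη).subset fun u hu => ⟨hu.1, ?_⟩
      obtain ⟨⟨i, hi, e⟩, ⟨i', hi', e'⟩⟩ := hu
      by_contra hc
      have hc : η < u.1 := not_le.1 hc
      have e1 : u.2.1 = ct o u.1 b := by rw [e]; rfl
      have e2 : u.2.1 = ct o u.1 b' := by rw [e']; rfl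
      apply hb
      rw [← ct_lt o hc b, ← ct_lt o hc b', ← e1, ← e2]
    · push Not at hb
      refine Set.finite_empty.subset ?_
      rintro u ⟨⟨i, ⟨n1, hi⟩, e⟩, ⟨i', ⟨n2, hi'⟩, e'⟩⟩
      have hbb : b = b' := by
        simp only at n1 n2
        rw [← n1, ← n2]
        funext η
        by_cases hη : η < δ
        · rw [ct_lt o hη, ct_lt o hη, hb η hη]
        · simp [ct, hη]
      subst hbb
      have hτ : (l, i) ≠ (l', i') := fun h => hne (by rw [show l = l' from congrArg Prod.fst h])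
      have e1 : (pick δ b (l, i)).1 = (pick δ b (l', i')).1 :=
        congrArg (fun z : Vt Ω => z.1) (e.symm.trans e')
      have e2 : (pick δ b (l, i)).2 = (pick δ b (l', i')).2 :=
        congrArg (fun z : Vt Ω => z.2.2) (e.symm.trans e')
      have h2 := (hp.wit _ _ _ hi').2.1
      have k := hp.sparse _ _ _ hi _ hi' hτ
      dsimp only at h2 k
      rw [e1, e2, or_self] at k
      exact lt_asymm k h2
  · exact (low_fin hp v h).subset fun u hu => ⟨hu.1, (hu.2.lt hp).le⟩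

/-- no half graph with two more vertices -/
theorem no_H (x y : ℕ → Vt Ω) (z z' : Vt Ω) (hx : Function.Injective x)
    (hy : Function.Injective y) (hz : z ≠ z')
    (h : ∀ i j, i ≤ j → Lw o en N pick (x i) (y j) ∨ Lw o en N pick (y j) (x i))
    (k : ∀ i, Lw o en N pick (x i) z ∨ Lw o en N pick z (x i))
    (k' : ∀ i, Lw o en N pick (x i) z' ∨ Lw o en N pick z' (x i)) : False := by
  have mix : ∀ a b : Vt Ω, {i | Lw o en N pick (x i) a ∧ Lw o en N pick b (x i)}.Finite :=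
    fun a b => Set.Subsingleton.finite fun i hi j hj => by
      by_contra c
      exact no_sp hp hi.1 hj.1 (hx.ne c) hi.2 hj.2
  have f1 : {i | ¬ Lw o en N pick z (x i)}.Finite :=
    (((com_fin hp hz).preimage hx.injOn).union (mix z z')).subset fun i hi =>
      (k' i).imp (fun c => ⟨(k i).resolve_right hi, c⟩) fun c => ⟨(k i).resolve_right hi, c⟩
  obtain ⟨m, hm⟩ := f1.bddAbove
  have up : ∀ i, m < i → Lw o en N pick z (x i) := fun i hi => by
    by_contra c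
    exact absurd (hm c) (not_le.2 hi)
  have two : ∀ i i', i ≠ i' →
      {j | Lw o en N pick (y j) (x i) ∧ Lw o en N pick (y j) (x i')}.Finite :=
    fun i i' c => (com_fin hp (hx.ne c)).preimage hy.injOn
  obtain ⟨j, hj⟩ := (((Set.finite_le_nat (m + 3)).union (two (m + 1) (m + 2) (by omega))).union
    ((two (m + 1) (m + 3) (by omega)).union (two (m + 2) (m + 3) (by omega)))).exists_notMem
  simp only [Set.mem_union, Set.mem_ofPred_eq, not_or, not_le] at hj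
  obtain ⟨⟨j0, j1⟩, j2, j3⟩ := hj
  have sp : ∀ i i', m < i → i < i' → Lw o en N pick (x i) (y j) → Lw o en N pick (x i') (y j) →
      False := fun i i' a b c d => no_sp hp c d (hx.ne b.ne) (up i a) (up i' (a.trans b))
  rcases h (m + 1) j (by omega) with a | a <;> rcases h (m + 2) j (by omega) with b | b <;>
    rcases h (m + 3) j (by omega) with c | c
  exacts [sp _ _ (by omega) (by omega) a b, sp _ _ (by omega) (by omega) a b,
    sp _ _ (by omega) (by omega) a c, j3 ⟨b, c⟩, sp _ _ (by omega) (by omega) b c, j2 ⟨a, c⟩,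
    j1 ⟨a, b⟩, j1 ⟨a, b⟩]

theorem mono_edge [LikeOmegaOne Ω] [WellFoundedLT Ω] (hen : ∀ δ γ, γ < δ → ∃ n, en δ n = γ)
    (c : Vt Ω → ℕ) : ∃ i v, Ac o en N i v ∧ c (sl o pick i v) = c v := by
  classical
  have h1 : ∀ a : Ω → Lb Ω, ∃ s : Br Ω, ∀ δ, s δ = (a δ, fun n => c (δ, ct o δ s, n)) := fun a => by
    refine ⟨(wellFounded_lt (α := Ω)).fix (C := fun _ => Lb Ω × (ℕ → ℕ)) fun δ ih =>
      (a δ, fun n => c (δ, fun η => if h : η < δ then ih η h else (o, 0), n)), fun δ => ?_⟩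
    rw [WellFounded.fix_eq]
    congr
  choose s hs using h1
  choose! ix hix using hen
  have loc : ∀ δ (a a' : Ω → Lb Ω), (∀ η < δ, a' η = a η) → ct o δ (s a') = ct o δ (s a) := by
    intro δ a a'
    induction δ using WellFoundedLT.induction with
    | _ δ ih =>
      intro e
      funext η
      by_cases hη : η < δ
      · rw [ct_lt o hη, ct_lt o hη, hs, hs a, e η hη, ih η hη fun β hβ => e β (hβ.trans hη)]
      · simp [ct, hη]
  obtain ⟨δ, a, γ, h1, h2⟩ := core (col := fun δ a γ => c (δ, ct o δ (s a), ix δ γ)) (N := N)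
    (o.1 0, fun _ => o) fun δ a a' γ e => by rw [loc δ a a' e]
  have hτ : (ix δ γ, c (δ, ct o δ (s a), ix δ γ)) ∈ Tk en N δ (ct o δ (s a)) := by
    refine ⟨by rwa [hix δ γ h1], fun ξ hξ => ?_⟩
    obtain ⟨η, γ', k1, k2, k3, k4, k5⟩ := h2 _ (max_lt hξ h1)
    refine ⟨(η, ix η γ'), ⟨?_, ?_, ?_⟩, ?_, ?_, k3⟩ <;> dsimp only
    · rwa [hix δ γ h1, hix η γ' k2, ct_lt o h1, ct_lt o (k2.trans k3), hs a γ, hs a γ']
    · rwa [ct_lt o k3, hs a η]
    · rw [hix δ γ h1]; exact ((le_max_right _ _).trans_lt k1).trans k2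
    · rw [hix η γ' k2]; exact (le_max_left _ _).trans_lt k1
    · rwa [hix η γ' k2]
  obtain ⟨⟨-, w2, -⟩, -, w3⟩ := hp.wit _ _ _ hτ
  refine ⟨_, (δ, ct o δ (s a), ix δ γ), ⟨ct_ct o le_rfl _, hτ⟩, ?_⟩
  rw [ct_lt o w3, hs a] at w2
  rw [sl, ct_ct o w3.le]
  exact w2

theorem small [WellFoundedLT Ω] (hN : Monotone N) {S : Type} [Fintype S] (H : SimpleGraph S)
    (φ : S → Vt Ω) (h : ∀ u v, H.Adj u v → Lw o en N pick (φ u) (φ v) ∨ Lw o en N pick (φ v) (φ u))
    (j m : ℕ) (hm : Fintype.card S ≤ m) (hj : 2 ^ (2 * m + 2) ≤ N j) : H.Colorable ((j + 1) * 2) := by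
  obtain ⟨κ, hκ⟩ := greedy (fun u v : Vt Ω => u.1 < v.1) (InvImage.wf Prod.fst wellFounded_lt) j
    (Ac o en N) (sl o pick) fun i v k => Lw.lt hp ⟨i, k, rfl⟩
  have key : ∀ u v, Lw o en N pick u v → κ u = κ v → Rl (N j) (lb en v) (lb en u) := by
    rintro _ v ⟨i, hi, rfl⟩ e
    exact (hi.rl hp).mono (hN (not_lt.1 fun c => hκ i c v hi e))
  obtain ⟨C⟩ := two_col
    ⟨fun u v => H.Adj u v ∧ κ (φ u) = κ (φ v), ⟨fun u v k => ⟨k.1.symm, k.2.symm⟩⟩,
      ⟨fun u k => k.1.ne rfl⟩⟩ (fun u => lb en (φ u)) m (N j) hm hj fun u v k =>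
      (h u v k.1).symm.imp (fun l => key _ _ l k.2.symm) fun l => key _ _ l k.2
  have := (SimpleGraph.Coloring.mk (G := H) (fun u => (κ (φ u), C u)) fun {u v} k e =>
    C.valid ⟨k, congrArg Prod.fst e⟩ (congrArg Prod.snd e)).colorable
  simpa using this

omit hp in
theorem main (f : ℕ → ℕ) : ∃ (V : Type) (G : SimpleGraph V),
    Cardinal.mk V ≤ Cardinal.continuum ∧
    IsLeast {κ : Cardinal.{0} | ∃ C : Type, Cardinal.mk C = κ ∧ Nonempty (G.Coloring C)}
      (Cardinal.aleph 1) ∧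
    (¬ ∃ (x y : ℕ → V) (z z' : V), Function.Injective x ∧ Function.Injective y ∧ z ≠ z' ∧
      (∀ i j, i ≤ j → G.Adj (x i) (y j)) ∧ ∀ i, G.Adj (x i) z ∧ G.Adj (x i) z') ∧
    ∀ k : ℕ, 2 ≤ k → ∀ S : Finset V, S.card ≤ f k → (G.induce (S : Set V)).Colorable k := by
  have hne : Nonempty W1 := by
    by_contra h
    rw [not_nonempty_iff] at h
    exact LikeOmegaOne.uncountable (Ω := W1) (Set.countable_univ)
  obtain ⟨w⟩ := id hne
  choose nx hnx using exists_above (Ω := W1)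
  let o : Lb W1 := ⟨fun n => nx^[n] w, strictMono_nat_of_lt_succ fun n => by
    rw [Function.iterate_succ_apply']; exact hnx _⟩
  choose en hen using fun δ : W1 =>
    (LikeOmegaOne.countable_Iic δ).exists_eq_range ⟨δ, le_refl δ⟩
  have hen' : ∀ δ γ, γ < δ → ∃ n, en δ n = γ := fun δ γ h => by
    have : γ ∈ Set.range (en δ) := hen δ ▸ h.le
    exact this
  let N : ℕ → ℕ := fun j => 2 ^ (2 * (∑ k ∈ Finset.range (2 * j + 4), f k) + 2)
  have hN : Monotone N := fun a b h => Nat.pow_le_pow_right two_pos (by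
    have := Finset.sum_le_sum_of_subset (f := f)
      (Finset.range_mono (show 2 * a + 4 ≤ 2 * b + 4 by omega))
    omega)
  obtain ⟨pick, hp⟩ := exists_Gd en N
  let V := {v : Vt W1 // ct o v.1 v.2.1 = v.2.1}
  let G : SimpleGraph V := SimpleGraph.fromRel fun u v => Lw o en N pick u.1 v.1
  have adj : ∀ {u v : V}, G.Adj u v → Lw o en N pick u.1 v.1 ∨ Lw o en N pick v.1 u.1 :=
    fun h => ((SimpleGraph.fromRel_adj _ _ _).1 h).2
  refine ⟨V, G, ?_, ⟨⟨W1, Cardinal.mk_ord_toType _, ⟨SimpleGraph.Coloring.mk (fun v => v.1.1)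
    fun h => (adj h).elim (fun k => (k.lt hp).ne) fun k => (k.lt hp).ne'⟩⟩, ?_⟩, ?_,
    fun k hk S hS => ?_⟩
  · have h1 : Cardinal.mk W1 ≤ Cardinal.continuum :=
      (Cardinal.mk_ord_toType _).trans_le Cardinal.aleph_one_le_continuum
    have h2 : ∀ {A : Type}, Cardinal.mk A ≤ Cardinal.continuum →
        Cardinal.mk (ℕ → A) ≤ Cardinal.continuum := fun h => by
      rw [← Cardinal.power_def, Cardinal.mk_nat, ← Cardinal.continuum_power_aleph0]
      exact Cardinal.power_le_power_right h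
    have h3 : ∀ {A B : Type}, Cardinal.mk A ≤ Cardinal.continuum →
        Cardinal.mk B ≤ Cardinal.continuum → Cardinal.mk (A × B) ≤ Cardinal.continuum :=
      fun h h' => by
        rw [← Cardinal.mul_def, ← Cardinal.continuum_mul_self]
        exact mul_le_mul' h h'
    have h4 : Cardinal.mk ℕ ≤ Cardinal.continuum :=
      Cardinal.mk_nat.trans_le Cardinal.aleph0_le_continuum
    refine (Cardinal.mk_le_of_injective (f := fun v : V =>
      (v.1.1, fun n => v.1.2.1 (en v.1.1 n), v.1.2.2)) ?_).trans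
      (h3 h1 (h3 (h2 (h3 ((Cardinal.mk_subtype_le _).trans (h2 h1)) (h2 h4))) h4))
    rintro ⟨⟨δ, s, n⟩, h⟩ ⟨⟨δ', s', n'⟩, h'⟩ e
    simp only [Prod.mk.injEq] at e h h'
    obtain ⟨rfl, e, rfl⟩ := e
    have : s = s' := by
      rw [← h, ← h']
      funext η
      by_cases hη : η < δ
      · obtain ⟨m, rfl⟩ := hen' δ η hη
        rw [ct_lt o hη, ct_lt o hη]
        exact congrFun e m
      · simp [ct, hη]
    subst this
    rfl
  · rintro κ ⟨C, rfl, ⟨col⟩⟩
    by_contra hlt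
    rw [not_le, Cardinal.lt_aleph_one_iff, Cardinal.mk_le_aleph0_iff] at hlt
    obtain ⟨e, he⟩ := Countable.exists_injective_nat C
    obtain ⟨i, v, h1, h2⟩ := mono_edge (o := o) hp hen'
      fun v => e (col ⟨(v.1, ct o v.1 v.2.1, v.2.2), ct_ct o le_rfl _⟩)
    have l : Lw o en N pick (sl o pick i v) v := ⟨i, h1, rfl⟩
    refine col.valid ((SimpleGraph.fromRel_adj _ _ _).2 ⟨fun k => (l.lt hp).ne
      (congrArg (fun z : V => z.1.1) k), Or.inl ?_⟩) (he h2)
    have e1 : ct o (sl o pick i v).1 (sl o pick i v).2.1 = (sl o pick i v).2.1 := ct_ct o le_rfl _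
    dsimp only
    rw [e1, h1.1]
    exact l
  · rintro ⟨x, y, z, z', h1, h2, h3, h4, h5⟩
    exact no_H hp (fun i => (x i).1) (fun i => (y i).1) z.1 z'.1 (Subtype.val_injective.comp h1)
      (Subtype.val_injective.comp h2) (Subtype.val_injective.ne h3) (fun i j h => adj (h4 i j h))
      (fun i => adj (h5 i).1) fun i => adj (h5 i).2
  · refine (small (o := o) hp hN (G.induce (S : Set V)) (fun u => u.1.1) (fun u v h => adj h) (k / 2 - 1) (f k)
      (by simpa using hS) (Nat.pow_le_pow_right two_pos ?_)).mono (by omega)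
    have := Finset.single_le_sum (f := f) (fun _ _ => Nat.zero_le _)
      (Finset.mem_range.2 (show k < 2 * (k / 2 - 1) + 4 by omega))
    omega

end Pool.Agent.MP_037fd6_co.Sl
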