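import Pool.Agent.MP_037fd6_co.Omega

namespace Pool.Agent.MP_037fd6_co

variable {Ω : Type} [LinearOrder Ω]

/-- `x` and `y` are increasing `n`-tuples interlaced with shift `s` -/
def Arc (n s : ℕ) (x y : Fin n → Ω) : Prop :=
  StrictMono x ∧ StrictMono y ∧ (∀ i j : Fin n, i.val = j.val + s → x i < y j) ∧
    ∀ i j : Fin n, i.val = j.val + s + 1 → y j < x i

/-- a Specker graph -/
def specker (Ω : Type) [LinearOrder Ω] (n s : ℕ) : SimpleGraph (Fin n → Ω) :=
  SimpleGraph.fromRel (Arc n s)

lemma specker_walk {n s : ℕ} (g : ℕ → Fin n → Ω) (L : ℕ)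
    (hg : ∀ i < L, (specker Ω n s).Adj (g i) (g (i + 1))) :
    ∃ p q : ℕ, p + q = L ∧
      (∀ a b : Fin n, s * L ≤ a.val → a.val + (s + 1) * L < n →
        b.val + s * p = a.val + (s + 1) * q → g 0 a ≤ g L b) ∧
      (∀ a b : Fin n, s * L ≤ a.val → a.val + (s + 1) * L < n →
        b.val + s * q = a.val + (s + 1) * p → g L a ≤ g 0 b) := by
  induction L with
  | zero =>
    refine ⟨0, 0, rfl, fun a b _ _ h => ?_, fun a b _ _ h => ?_⟩
    · have : b = a := Fin.ext (by simpa using h)
      rw [this]
    · have : b = a := Fin.ext (by simpa using h)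
      rw [this]
  | succ L ih =>
    obtain ⟨p, q, hpq, h1, h2⟩ := ih fun i hi => hg i (by omega)
    have hL := hg L (by omega)
    rw [specker, SimpleGraph.fromRel_adj] at hL
    have e1 : s * (L + 1) = s * p + s * q + s := by rw [← hpq]; ring
    have e2 : (s + 1) * (L + 1) = s * p + s * q + p + q + s + 1 := by rw [← hpq]; ring
    have e3 : s * L = s * p + s * q := by rw [← hpq]; ring
    have e4 : (s + 1) * L = s * p + s * q + p + q := by rw [← hpq]; ring
    have e5 : (s + 1) * p = s * p + p := by ring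
    have e6 : (s + 1) * q = s * q + q := by ring
    have e7 : s * (p + 1) = s * p + s := by ring
    have e8 : s * (q + 1) = s * q + s := by ring
    have e9 : (s + 1) * (p + 1) = s * p + p + s + 1 := by ring
    have e10 : (s + 1) * (q + 1) = s * q + q + s + 1 := by ring
    rcases hL.2 with h | h
    · refine ⟨p + 1, q, by omega, fun a b ha hb hab => ?_, fun a b ha hb hab => ?_⟩
      · have hc : b.val + s < n := by omega
        exact (h1 a ⟨b.val + s, hc⟩ (by omega) (by omega) (by simp only; omega)).trans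
          (h.2.2.1 _ b rfl).le
      · have hc : a.val + s + 1 < n := by omega
        exact (h.2.2.2 ⟨a.val + s + 1, hc⟩ a rfl).le.trans
          (h2 _ b (by simp only; omega) (by simp only; omega) (by simp only; omega))
    · refine ⟨p, q + 1, by omega, fun a b ha hb hab => ?_, fun a b ha hb hab => ?_⟩
      · have hc : b.val - (s + 1) < n := by omega
        exact (h1 a ⟨b.val - (s + 1), hc⟩ (by omega) (by omega) (by simp only; omega)).trans
          (h.2.2.2 b _ (by simp only; omega)).le
      · have hc : a.val - s < n := by omega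
        exact (h.2.2.1 a ⟨a.val - s, hc⟩ (by simp only; omega)).le.trans
          (h2 _ b (by simp only; omega) (by simp only; omega) (by simp only; omega))

lemma specker_no_odd {k r : ℕ} (hr : r ≤ k) (g : ℕ → Fin ((2 * k + 3) * (2 * k + 1) + 1) → Ω)
    (hg : ∀ i < 2 * r + 1,
      (specker Ω ((2 * k + 3) * (2 * k + 1) + 1) (k + 1)).Adj (g i) (g (i + 1)))
    (hc : g (2 * r + 1) = g 0) : False := by
  obtain ⟨p, q, hpq, h1, h2⟩ := specker_walk g _ hg
  have hmono : StrictMono (g 0) := by
    have := hg 0 (by omega)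
    rw [specker, SimpleGraph.fromRel_adj] at this
    rcases this.2 with h | h
    · exact h.1
    · exact h.2.1
  rw [hc] at h1 h2
  have key : ∀ p q : ℕ, p + q = 2 * r + 1 → q < p →
      (∀ a b : Fin ((2 * k + 3) * (2 * k + 1) + 1), (k + 1) * (2 * r + 1) ≤ a.val →
        a.val + (k + 1 + 1) * (2 * r + 1) < (2 * k + 3) * (2 * k + 1) + 1 →
        b.val + (k + 1) * p = a.val + (k + 1 + 1) * q → g 0 a ≤ g 0 b) → False := by
    intro p q hpq hqp h
    have f1 : (k + 1) * (2 * r + 1) + (k + 1 + 1) * (2 * r + 1) < (2 * k + 3) * (2 * k + 1) + 1 := by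
      have : (2 * k + 3) * (2 * r + 1) ≤ (2 * k + 3) * (2 * k + 1) :=
        Nat.mul_le_mul_left _ (by omega)
      have e : (k + 1) * (2 * r + 1) + (k + 1 + 1) * (2 * r + 1) = (2 * k + 3) * (2 * r + 1) := by
        ring
      omega
    have f2 : (k + 1) * (2 * r + 1) = (k + 1) * p + (k + 1) * q := by rw [← hpq]; ring
    have f3 : (k + 1 + 1) * q = (k + 1) * q + q := by ring
    have f4 : (k + 1) * (q + 1) ≤ (k + 1) * p := Nat.mul_le_mul_left _ hqp
    have f5 : (k + 1) * (q + 1) = (k + 1) * q + k + 1 := by ring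
    have ha : (k + 1) * (2 * r + 1) < (2 * k + 3) * (2 * k + 1) + 1 := by omega
    have hb : (k + 1) * q + (k + 1 + 1) * q < (2 * k + 3) * (2 * k + 1) + 1 := by omega
    have := h ⟨_, ha⟩ ⟨_, hb⟩ le_rfl f1 (by simp only; omega)
    have h2 : g 0 ⟨_, hb⟩ < g 0 ⟨_, ha⟩ := hmono (by simp only [Fin.lt_def]; omega)
    exact absurd this (not_le.2 h2)
  rcases lt_trichotomy p q with h | h | h
  · exact key q p (by omega) h h2
  · omega
  · exact key p q hpq h h1

variable [LikeOmegaOne Ω]

/-- iterated unbounded quantifier -/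
def Big (P : (ℕ → Ω) → Prop) : ℕ → ℕ → (ℕ → Ω) → Prop
  | 0, _, x => P x
  | m + 1, k, x => Unb fun a => Big P m (k + 1) (Function.update x k a)

lemma exists_big (c : (ℕ → Ω) → ℕ) (m k : ℕ) (x : ℕ → Ω) : ∃ i, Big (fun y => c y = i) m k x := by
  induction m generalizing k x with
  | zero => exact ⟨c x, rfl⟩
  | succ m ih =>
    choose f hf using fun a => ih (k + 1) (Function.update x k a)
    obtain ⟨i, hi⟩ := unb_true.pigeon f
    refine ⟨i, fun a => ?_⟩
    obtain ⟨b, hab, -, hb⟩ := hi a
    exact ⟨b, hab, hb ▸ hf b⟩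

lemma big_step {n : ℕ} (c : (Fin n → Ω) → ℕ) (i k : ℕ) (x : ℕ → Ω)
    (h : Big (fun y => c (fun j => y j) = i) (n - k) k x) (a : Ω) :
    ∃ b, a < b ∧
      Big (fun y => c (fun j => y j) = i) (n - (k + 1)) (k + 1) (Function.update x k b) := by
  by_cases hk : k < n
  · rw [show n - k = (n - (k + 1)) + 1 by omega] at h
    exact h a
  · obtain ⟨b, hb⟩ := exists_above a
    refine ⟨b, hb, ?_⟩
    rw [show n - k = 0 by omega] at h
    rw [show n - (k + 1) = 0 by omega]
    have : (fun j : Fin n => Function.update x k b j) = fun j : Fin n => x j := by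
      funext j
      rw [Function.update_of_ne (by omega)]
    simp only [Big] at h ⊢
    rw [this, h]

lemma specker_mono_edge {n s : ℕ} (hsn : s < n) (c : (Fin n → Ω) → ℕ) :
    ∃ x y, (specker Ω n s).Adj x y ∧ c x = c y := by
  have hne : Nonempty Ω := by
    by_contra h
    rw [not_nonempty_iff] at h
    exact LikeOmegaOne.uncountable (Ω := Ω) (Set.countable_univ)
  obtain ⟨o⟩ := hne
  obtain ⟨i, hi⟩ := exists_big (fun y : ℕ → Ω => c (fun j => y j)) n 0 (fun _ => o)
  have first : ∀ t : ℕ, ∃ x : ℕ → Ω, Big (fun y => c (fun j => y j) = i) (n - (t + 1)) (t + 1) x ∧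
      ∀ u < t, x u < x (u + 1) := by
    intro t
    induction t with
    | zero =>
      obtain ⟨b, -, hb⟩ := big_step c i 0 _ hi o
      exact ⟨_, hb, by simp⟩
    | succ t ih =>
      obtain ⟨x, hx, hm⟩ := ih
      obtain ⟨b, hb1, hb⟩ := big_step c i (t + 1) x hx (x t)
      refine ⟨_, hb, fun u hu => ?_⟩
      rw [Function.update_of_ne (by omega)]
      by_cases h : u = t
      · subst h; simpa using hb1
      · rw [Function.update_of_ne (by omega)]; exact hm u (by omega)
  have second : ∀ t : ℕ, ∃ x y : ℕ → Ω,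
      Big (fun y => c (fun j => y j) = i) (n - (s + t + 1)) (s + t + 1) x ∧
      Big (fun y => c (fun j => y j) = i) (n - t) t y ∧
      (∀ u < s + t, x u < x (u + 1)) ∧ ∀ u < t, x (u + s) < y u ∧ y u < x (u + s + 1) := by
    intro t
    induction t with
    | zero =>
      obtain ⟨x, hx, hm⟩ := first s
      exact ⟨x, _, hx, hi, hm, by simp⟩
    | succ t ih =>
      obtain ⟨x, y, hx, hy, hm, hxy⟩ := ih
      obtain ⟨b, hb1, hb⟩ := big_step c i t y hy (x (s + t))
      obtain ⟨a, ha1, ha⟩ := big_step c i (s + t + 1) x hx b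
      refine ⟨_, _, ha, hb, fun u hu => ?_, fun u hu => ?_⟩
      · rw [Function.update_of_ne (by omega)]
        by_cases h : u = s + t
        · subst h; simpa using hb1.trans ha1
        · rw [Function.update_of_ne (by omega)]; exact hm u (by omega)
      · rw [Function.update_of_ne (by omega)]
        by_cases h : u = t
        · subst h
          rw [Function.update_self, add_comm u s, Function.update_self]
          exact ⟨hb1, ha1⟩
        · rw [Function.update_of_ne h, Function.update_of_ne (by omega)]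
          exact hxy u (by omega)
  obtain ⟨x, y, hx, hy, hm, hxy⟩ := second n
  rw [show n - (s + n + 1) = 0 by omega] at hx
  rw [Nat.sub_self] at hy
  simp only [Big] at hx hy
  obtain ⟨n, rfl⟩ : ∃ m, n = m + 1 := ⟨n - 1, by omega⟩
  have harc : Arc (n + 1) s (fun j => x j) (fun j => y j) := by
    refine ⟨?_, ?_, fun a b hab => ?_, fun a b hab => ?_⟩
    · rw [Fin.strictMono_iff_lt_succ]
      intro j
      simpa using hm j (by omega)
    · rw [Fin.strictMono_iff_lt_succ]
      intro j
      have h1 := (hxy j (by omega)).2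
      have h2 := (hxy (j + 1) (by omega)).1
      rw [show j.val + 1 + s = j + s + 1 by omega] at h2
      simpa using h1.trans h2
    · simp only [hab]; exact (hxy b b.2).1
    · simp only [hab]; exact (hxy b b.2).2
  refine ⟨fun j => x j, fun j => y j, ?_, hx.trans hy.symm⟩
  rw [specker, SimpleGraph.fromRel_adj]
  refine ⟨fun h => ?_, Or.inl harc⟩
  have h1 := harc.2.2.1 ⟨s, hsn⟩ 0 (by simp)
  rw [← h] at h1
  exact absurd (harc.1.monotone (Fin.zero_le _)) (not_le.2 h1)

lemma exists_rank (n : ℕ) : ∃ r : (Fin n → Ω) → Ω, ∀ η, {x | r x ≤ η}.Countable := by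
  choose r hr using fun x : Fin n → Ω => exists_bound_fun x
  refine ⟨r, fun η => (Set.countable_univ_pi (fun _ : Fin n =>
    LikeOmegaOne.countable_Iic η)).mono ?_⟩
  intro x hx j _
  exact (hr x j).le.trans hx

end Pool.Agent.MP_037fd6_co
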